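import Pool.Agent.Q293.OrbitSpan

/-!
# Non-constant functions converging along random walks have an infinite-dimensional orbit span

Let `V` be the orbit span of `f`, of finite dimension. Evaluation at the positions `X_t` of the walk
converges in the dual of `V`, hence the matrices of `X_t` contract, along suitable times and in
probability, the smallest subspace `W` of the dual containing almost surely all the increments
`ev(X_k) - ev(1)`. This subspace is invariant under almost every step, and by symmetry the
determinant of `X_t` on `W` has the same law as its inverse. So `W = 0`, i.e. almost every step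
fixes `ev(1)`, and adaptedness shows that `f` is constant.
-/

set_option autoImplicit false

open MeasureTheory Filter Topology

namespace Pool.Agent.Results.MP_0b4a43_pr.OrbitSpanInfinite

/-- `μ` is adapted: `μ H < 1` for every proper closed subgroup `H`. -/
def Adapted {G : Type*} [Group G] [TopologicalSpace G] [MeasurableSpace G] (μ : Measure G) : Prop :=
  ∀ H : Subgroup G, IsClosed (H : Set G) → H ≠ ⊤ → μ (H : Set G) < 1

/-- `μ` is symmetric. -/
def Symmetric {G : Type*} [Group G] [MeasurableSpace G] (μ : Measure G) : Prop :=
  ∀ A : Set G, MeasurableSet A → μ A = μ A⁻¹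

/-- The law of the i.i.d. steps `ω 0, ω 1, ...` with law `μ`. -/
noncomputable def steps {G : Type*} [MeasurableSpace G] (μ : Measure G) : Measure (ℕ → G) :=
  Measure.infinitePi (fun _ : ℕ => μ)

/-- The walk: `walk ω t = ω 0 * ω 1 * ... * ω (t - 1)`; in particular `walk ω 0 = 1`. -/
def walk {G : Type*} [Group G] (ω : ℕ → G) (t : ℕ) : G := ((List.range t).map ω).prod

/-- `f` converges along `μ`-random walks: for every `x`, the sequence `f (x X_t)` converges almost
surely. -/
def ConvergesAlongWalks {G : Type*} [Group G] [MeasurableSpace G] (μ : Measure G) (f : G → ℝ) :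
    Prop :=
  ∀ x : G, ∀ᵐ ω ∂(steps μ), ∃ l : ℝ, Tendsto (fun t => f (x * walk ω t)) atTop (𝓝 l)

/-- The linear span of the orbit of `f` under `(γ.f) x = f (γ⁻¹ x)`. -/
def orbitSpan {G : Type*} [Group G] (f : G → ℝ) : Submodule ℝ (G → ℝ) :=
  Submodule.span ℝ (Set.range fun γ : G => fun x : G => f (γ⁻¹ * x))

/-- Let `G` be a topological group and `μ` an adapted symmetric Borel probability measure on `G`.
If a continuous non-constant function `f : G → ℝ` converges along `μ`-random walks then the linear
span of its orbit is infinite dimensional. (Local compactness, compact generation and the third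
moment of `μ` are not needed.) -/
theorem result {G : Type*} [Group G] [TopologicalSpace G] [IsTopologicalGroup G]
    [MeasurableSpace G] [BorelSpace G] (μ : Measure G) [IsProbabilityMeasure μ]
    (hadapted : Adapted μ) (hsymm : Symmetric μ) (f : G → ℝ) (hf : Continuous f)
    (hconst : ¬ ∃ c : ℝ, ∀ x, f x = c) (hconv : ConvergesAlongWalks μ f) :
    ¬ Module.Finite ℝ (orbitSpan f) := by
  intro hfin
  apply hconst
  refine ⟨f 1, Q293.OrbitSpan.main μ ?_ ?_ f hf hconv hfin⟩
  · intro H hH h1
    by_contra hne
    exact (hadapted H hH hne).ne h1
  · ext A hA
    rw [Measure.map_apply measurable_inv hA]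
    exact (hsymm A hA).symm

end Pool.Agent.Results.MP_0b4a43_pr.OrbitSpanInfinite
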